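import Mathlib
import Pool.Agent.Lib_helper48.EVEN.Nodes

/-!
Number fields of odd degree: majority signs of `N(n - z)`, for all `n` in a lattice.
-/

namespace Pool.Agent.Lib_helper48.CNT

open Pool.Agent.Lib_helper11.CUB Pool.Agent.Lib_helper3.QUI Polynomial
open Pool.Agent.Lib_helper48.EVEN (Gen gen_affine gen_sq affine_not_mem)

variable {K : Type*} [Field K] [NumberField K]

/-- The integers `m` with `x ≤ m / D ≤ X` for which the sign of `N(m / D - z)` is not `ε`. -/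
noncomputable def exc (h : ℕ → ℤ) (D : ℕ) (x X : ℚ) (z : K) (ε : ℤ) : Finset ℤ :=
  (Finset.Icc ⌈D * x⌉ ⌊D * X⌋).filter (fun m => G h z (m / D) ≠ ε)

theorem mem_exc {h : ℕ → ℤ} {D : ℕ} {x X : ℚ} {z : K} {ε : ℤ} {m : ℤ} :
    m ∈ exc h D x X z ε ↔ (D * x ≤ m ∧ (m : ℚ) ≤ D * X) ∧ G h z (m / D) ≠ ε := by
  unfold exc
  rw [Finset.mem_filter, Finset.mem_Icc, Int.ceil_le, Int.le_floor]

/-- `ε` is the sign of `N(n - z)` for all but at most `x / 4` of the `n ∈ (1/D)ℤ ∩ [x, X]`. -/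
def Maj (h : ℕ → ℤ) (D : ℕ) (x : ℕ) (X : ℚ) (z : K) (ε : ℤ) : Prop :=
  4 * (exc h D x X z ε).card ≤ x

theorem Maj.mono {h : ℕ → ℤ} {D E : ℕ} (hD : 1 ≤ D) (hE : 1 ≤ E) {x : ℕ} {X X' : ℚ} {z : K} {ε : ℤ}
    (hDE : D ∣ E) (hX : X ≤ X') (H : Maj h E x X' z ε) : Maj h D x X z ε := by
  obtain ⟨k, rfl⟩ := hDE
  have hk : 1 ≤ k := by
    rcases Nat.eq_zero_or_pos k with h0 | h0
    · rw [h0, mul_zero] at hE; omega
    · exact h0
  have hkq : (0 : ℚ) < k := by exact_mod_cast hk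
  have hDq : (0 : ℚ) < D := by exact_mod_cast hD
  refine le_trans (Nat.mul_le_mul_left 4 ?_) H
  apply Finset.card_le_card_of_injOn (fun m => (k : ℤ) * m)
  · intro m hm
    rw [Finset.mem_coe, mem_exc] at hm ⊢
    obtain ⟨⟨h1, h2⟩, h3⟩ := hm
    refine ⟨⟨?_, ?_⟩, ?_⟩
    · push_cast
      calc (D : ℚ) * k * x = k * (D * x) := by ring
        _ ≤ k * m := mul_le_mul_of_nonneg_left h1 hkq.le
    · push_cast
      calc (k : ℚ) * m ≤ k * (D * X) := mul_le_mul_of_nonneg_left h2 hkq.le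
        _ ≤ k * (D * X') := by
          apply mul_le_mul_of_nonneg_left _ hkq.le
          exact mul_le_mul_of_nonneg_left hX hDq.le
        _ = D * k * X' := by ring
    · have e : (((k : ℤ) * m : ℤ) : ℚ) / ((D * k : ℕ) : ℚ) = m / D := by
        push_cast; field_simp
      rw [e]; exact h3
  · intro a _ b _ hab
    have hk0 : (k : ℤ) ≠ 0 := by exact_mod_cast (by omega : k ≠ 0)
    exact mul_left_cancel₀ hk0 hab

/-- The relation `Q` between the majority signs. -/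
def Ev (L : List K) (Q : (ℕ → ℤ) → (K → ℤ) → Prop) : Prop :=
  ∃ D : ℕ, 1 ≤ D ∧ ∃ C : ℚ, 2 ≤ C ∧ ∀ h : ℕ → ℤ, CM h → ∀ x : ℕ, 1 ≤ x → ∀ e : K → ℤ,
    (∀ z ∈ L, e z = 1 ∨ e z = -1) → (∀ z ∈ L, Maj h D x (C * (x : ℚ) ^ 2) z (e z)) → Q h e

theorem Ev.and {L L' : List K} {Q Q' : (ℕ → ℤ) → (K → ℤ) → Prop} (h1 : Ev L Q) (h2 : Ev L' Q') :
    Ev (L ++ L') (fun h e => Q h e ∧ Q' h e) := by
  obtain ⟨D, hD, C, hC, h1⟩ := h1
  obtain ⟨D', hD', C', hC', h2⟩ := h2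
  have hDD : 1 ≤ D * D' := Nat.mul_pos hD hD'
  refine ⟨D * D', hDD, max C C', hC.trans (le_max_left _ _), fun h hh x hx e hs hall => ?_⟩
  have k1 : C * (x : ℚ) ^ 2 ≤ max C C' * (x : ℚ) ^ 2 :=
    mul_le_mul_of_nonneg_right (le_max_left _ _) (sq_nonneg _)
  have k2 : C' * (x : ℚ) ^ 2 ≤ max C C' * (x : ℚ) ^ 2 :=
    mul_le_mul_of_nonneg_right (le_max_right _ _) (sq_nonneg _)
  exact ⟨h1 h hh x hx e (fun z hz => hs z (List.mem_append_left _ hz)) fun z hz =>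
      (hall z (List.mem_append_left _ hz)).mono hD hDD (dvd_mul_right _ _) k1,
    h2 h hh x hx e (fun z hz => hs z (List.mem_append_right _ hz)) fun z hz =>
      (hall z (List.mem_append_right _ hz)).mono hD' hDD (dvd_mul_left _ _) k2⟩

theorem Ev.imp {L : List K} {Q Q' : (ℕ → ℤ) → (K → ℤ) → Prop} (h1 : Ev L Q)
    (h2 : ∀ h : ℕ → ℤ, CM h → ∀ e : K → ℤ, Q h e → Q' h e) : Ev L Q' := by
  obtain ⟨D, hD, C, hC, h1⟩ := h1
  exact ⟨D, hD, C, hC, fun h hh x hx e hs hall => h2 h hh e (h1 h hh x hx e hs hall)⟩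

theorem Ev.sub {L L' : List K} {Q : (ℕ → ℤ) → (K → ℤ) → Prop} (h1 : Ev L Q)
    (h2 : ∀ z ∈ L, z ∈ L') : Ev L' Q := by
  obtain ⟨D, hD, C, hC, h1⟩ := h1
  exact ⟨D, hD, C, hC, fun h hh x hx e hs hall => h1 h hh x hx e (fun z hz => hs z (h2 z hz))
    fun z hz => hall z (h2 z hz)⟩

theorem Ev.signs (L : List K) : Ev L (fun _ e => ∀ z ∈ L, e z = 1 ∨ e z = -1) :=
  ⟨1, le_rfl, 2, le_rfl, fun _ _ _ _ _ hs _ => hs⟩

/-- A point which is not exceptional for three nodes. -/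
theorem exists_common {x : ℕ} (hx : 1 ≤ x) {N : ℤ} (E : Fin 3 → Finset ℤ) (φ : Fin 3 → ℤ → ℤ)
    (hE : ∀ i, 4 * (E i).card ≤ x) (hφ : ∀ i, ∀ a b : ℤ, N ≤ a → N ≤ b → φ i a = φ i b → a = b) :
    ∃ n : ℤ, N ≤ n ∧ n ≤ N + x ∧ ∀ i, φ i n ∉ E i := by
  classical
  by_contra hcon
  push Not at hcon
  have h1 : Finset.Icc N (N + x) ⊆ Finset.univ.biUnion
      (fun i : Fin 3 => (Finset.Icc N (N + x)).filter (fun n => φ i n ∈ E i)) := by
    intro n hn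
    obtain ⟨a, b⟩ := Finset.mem_Icc.1 hn
    obtain ⟨i, hi⟩ := hcon n a b
    exact Finset.mem_biUnion.2 ⟨i, Finset.mem_univ _, Finset.mem_filter.2 ⟨hn, hi⟩⟩
  have h2 := (Finset.card_le_card h1).trans Finset.card_biUnion_le
  have h3 : ∀ i : Fin 3, ((Finset.Icc N (N + x)).filter (fun n => φ i n ∈ E i)).card ≤ (E i).card := by
    intro i
    apply Finset.card_le_card_of_injOn (φ i)
    · intro n hn
      exact (Finset.mem_filter.1 hn).2
    · intro a ha b hb hab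
      exact hφ i a b (Finset.mem_Icc.1 (Finset.mem_filter.1 ha).1).1
        (Finset.mem_Icc.1 (Finset.mem_filter.1 hb).1).1 hab
  have h4 : (Finset.Icc N (N + x)).card = x + 1 := by
    rw [Int.card_Icc]; omega
  have h5 : ∑ i : Fin 3, ((Finset.Icc N (N + x)).filter (fun n => φ i n ∈ E i)).card ≤
      (E 0).card + (E 1).card + (E 2).card := by
    rw [Fin.sum_univ_three]
    exact Nat.add_le_add (Nat.add_le_add (h3 0) (h3 1)) (h3 2)
  have e0 := hE 0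
  have e1 := hE 1
  have e2 := hE 2
  omega

end Pool.Agent.Lib_helper48.CNT
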