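import Mathlib
import Pool.Agent.Lib_helper48.CNT.Base

/-!
Number fields of odd degree: the relation between the majority signs of `w`, `-w` and of a
quadratic polynomial in `w`; chains of conics.
-/

namespace Pool.Agent.Lib_helper48.CNT

open Pool.Agent.Lib_helper11.CUB Pool.Agent.Lib_helper3.QUI Polynomial
open Pool.Agent.Lib_helper48.EVEN (Gen gen_affine gen_sq affine_not_mem)

variable {K : Type*} [Field K] [NumberField K]

theorem rel_quad (hd : Odd (Module.finrank ℚ K)) {w : K} (hw : w ∉ (⊥ : IntermediateField ℚ K))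
    {α q c : ℚ} (hq : 0 < q) {y : K} (hy : y = (q : K) * (w + (α : K)) ^ 2 + (c : K)) :
    Ev [w, -w, y] (fun h e => e w * e (-w) = H h q * e y) := by
  have hq0 : q ≠ 0 := hq.ne'
  have hqK : (q : K) ≠ 0 := by exact_mod_cast hq0
  obtain ⟨D, hD, hDl⟩ := common_den [α, q, c]
  obtain ⟨A, hA⟩ := mem_ZZ.1 (hDl α (by simp))
  obtain ⟨B, hB⟩ := mem_ZZ.1 (hDl q (by simp))
  obtain ⟨E, hE⟩ := mem_ZZ.1 (hDl c (by simp))
  have hDq : (0 : ℚ) < D := by exact_mod_cast hD
  obtain ⟨a0, ha0⟩ := exists_nat_ge |α|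
  obtain ⟨N0, hN0⟩ := exists_nat_ge ((1 + |c|) / q)
  rw [div_le_iff₀ hq] at hN0
  have hc0 := abs_nonneg c
  have hα1 := le_abs_self α
  have hα2 := neg_abs_le α
  have hc1 := le_abs_self c
  have hc2 := neg_abs_le c
  have ha0' : (0 : ℚ) ≤ a0 := Nat.cast_nonneg _
  have hN0' : (0 : ℚ) ≤ N0 := Nat.cast_nonneg _
  obtain ⟨κ, hκ⟩ : ∃ κ : ℚ, κ = 2 + a0 + N0 := ⟨_, rfl⟩
  have hκ2 : 2 ≤ κ := by rw [hκ]; linarith
  refine ⟨D, hD, 2 + (κ + a0) + q * κ ^ 2 + |c|, by nlinarith [mul_pos hq (pow_pos (by linarith : (0:ℚ) < κ) 2)],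
    fun h hh x hx e _ hall => ?_⟩
  have hxq : (1 : ℚ) ≤ x := by exact_mod_cast hx
  have hx2 : (x : ℚ) ≤ (x : ℚ) ^ 2 := by nlinarith
  have hx3 : (1 : ℚ) ≤ (x : ℚ) ^ 2 := by linarith
  obtain ⟨X, hX⟩ : ∃ X : ℚ, X = (2 + (κ + a0) + q * κ ^ 2 + |c|) * (x : ℚ) ^ 2 := ⟨_, rfl⟩
  rw [← hX] at hall
  have hqκ : 0 ≤ q * κ ^ 2 := by positivity
  -- injectivity
  have inj2 : ∀ a b : ℤ, (x + a0 + N0 : ℤ) ≤ a → (x + a0 + N0 : ℤ) ≤ b →
      B * a ^ 2 + E = B * b ^ 2 + E → a = b := by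
    intro a b ha hb hab
    have hBpos : 0 < B := by
      have : (0 : ℚ) < (B : ℚ) := by rw [hB]; positivity
      exact_mod_cast this
    have h1 : a ^ 2 = b ^ 2 := by
      apply mul_left_cancel₀ hBpos.ne'
      linarith
    have hx' : (1 : ℤ) ≤ x := by exact_mod_cast hx
    have ha' : 0 ≤ a := by
      have : (0 : ℤ) ≤ a0 := Int.natCast_nonneg _
      have : (0 : ℤ) ≤ N0 := Int.natCast_nonneg _
      linarith
    have hb' : 0 ≤ b := by
      have : (0 : ℤ) ≤ a0 := Int.natCast_nonneg _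
      have : (0 : ℤ) ≤ N0 := Int.natCast_nonneg _
      linarith
    exact (pow_left_inj₀ ha' hb' (by norm_num)).1 h1
  have hDz : (D : ℤ) ≠ 0 := by exact_mod_cast (by omega : D ≠ 0)
  obtain ⟨n, hn1, hn2, hn3⟩ := exists_common hx (N := x + a0 + N0)
    ![exc h D x X w (e w), exc h D x X (-w) (e (-w)), exc h D x X y (e y)]
    ![fun n => D * n - A, fun n => D * n + A, fun n => B * n ^ 2 + E] (by
      intro i
      fin_cases i
      · exact hall w (by simp)
      · exact hall (-w) (by simp)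
      · exact hall y (by simp)) (by
      intro i a b ha hb hab
      fin_cases i
      · simp only [Fin.zero_eta, Matrix.cons_val_zero] at hab
        exact mul_left_cancel₀ hDz (by linarith)
      · simp only [Fin.mk_one, Matrix.cons_val_one, Matrix.cons_val_zero] at hab
        exact mul_left_cancel₀ hDz (by linarith)
      · exact inj2 a b ha hb hab)
  have m0 := hn3 0
  have m1 := hn3 1
  have m2 := hn3 2
  simp only [Matrix.cons_val_zero, Matrix.cons_val_one, Matrix.cons_val_two, Matrix.head_cons,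
    Matrix.tail_cons] at m0 m1 m2
  rw [mem_exc] at m0 m1 m2
  have hnq1 : (x : ℚ) + a0 + N0 ≤ n := by exact_mod_cast hn1
  have hnq2 : (n : ℚ) ≤ κ * x := by
    have h1 : (n : ℚ) ≤ (x : ℚ) + a0 + N0 + x := by exact_mod_cast hn2
    have h2 : (a0 : ℚ) * 1 ≤ a0 * x := mul_le_mul_of_nonneg_left hxq ha0'
    have h3 : (N0 : ℚ) * 1 ≤ N0 * x := mul_le_mul_of_nonneg_left hxq hN0'
    rw [hκ]; linarith
  have hn0 : (1 : ℚ) ≤ n := by linarith
  -- bounds for the arguments
  have hκx : κ * x ≤ κ * (x : ℚ) ^ 2 := mul_le_mul_of_nonneg_left hx2 (by linarith)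
  have hax : (a0 : ℚ) * 1 ≤ a0 * (x : ℚ) ^ 2 := mul_le_mul_of_nonneg_left hx3 ha0'
  have hcx : |c| * 1 ≤ |c| * (x : ℚ) ^ 2 := mul_le_mul_of_nonneg_left hx3 hc0
  have hX' : X = 2 * (x : ℚ) ^ 2 + κ * (x : ℚ) ^ 2 + a0 * (x : ℚ) ^ 2 + q * κ ^ 2 * (x : ℚ) ^ 2 +
      |c| * (x : ℚ) ^ 2 := by rw [hX]; ring
  have hqx : 0 ≤ q * κ ^ 2 * (x : ℚ) ^ 2 := by positivity
  have b0 : (D : ℚ) * x ≤ ((D * n - A : ℤ) : ℚ) ∧ ((D * n - A : ℤ) : ℚ) ≤ D * X := by
    push_cast
    rw [hA]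
    constructor
    · have : (D : ℚ) * n - D * α = D * (n - α) := by ring
      rw [this]
      exact mul_le_mul_of_nonneg_left (by linarith) hDq.le
    · have : (D : ℚ) * n - D * α = D * (n - α) := by ring
      rw [this]
      exact mul_le_mul_of_nonneg_left (by linarith) hDq.le
  have b1 : (D : ℚ) * x ≤ ((D * n + A : ℤ) : ℚ) ∧ ((D * n + A : ℤ) : ℚ) ≤ D * X := by
    push_cast
    rw [hA]
    constructor
    · have : (D : ℚ) * n + D * α = D * (n + α) := by ring
      rw [this]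
      exact mul_le_mul_of_nonneg_left (by linarith) hDq.le
    · have : (D : ℚ) * n + D * α = D * (n + α) := by ring
      rw [this]
      exact mul_le_mul_of_nonneg_left (by linarith) hDq.le
  have b2 : (D : ℚ) * x ≤ ((B * n ^ 2 + E : ℤ) : ℚ) ∧ ((B * n ^ 2 + E : ℤ) : ℚ) ≤ D * X := by
    push_cast
    rw [hB, hE]
    have e1 : (D : ℚ) * q * n ^ 2 + D * c = D * (q * n ^ 2 + c) := by ring
    rw [e1]
    constructor
    · apply mul_le_mul_of_nonneg_left _ hDq.le
      have h1 : (1 + |c|) * n ≤ N0 * q * n := mul_le_mul_of_nonneg_right hN0 (by linarith)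
      have h2 : N0 * q * n ≤ q * n * n := by
        have : N0 * (q * n) ≤ n * (q * n) :=
          mul_le_mul_of_nonneg_right (by linarith) (by positivity)
        linarith
      have h3 : |c| * 1 ≤ |c| * n := mul_le_mul_of_nonneg_left hn0 hc0
      have h4 : q * (n : ℚ) ^ 2 = q * n * n := by ring
      rw [h4]; linarith
    · apply mul_le_mul_of_nonneg_left _ hDq.le
      have h1 : (n : ℚ) ^ 2 ≤ (κ * x) ^ 2 := pow_le_pow_left₀ (by linarith) hnq2 2
      have h2 : q * (n : ℚ) ^ 2 ≤ q * (κ * x) ^ 2 := mul_le_mul_of_nonneg_left h1 hq.le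
      have h3 : q * (κ * (x : ℚ)) ^ 2 = q * κ ^ 2 * (x : ℚ) ^ 2 := by ring
      have h4 : 0 ≤ κ * (x : ℚ) ^ 2 := by positivity
      have h5 : 0 ≤ a0 * (x : ℚ) ^ 2 := by positivity
      rw [hX']; linarith
  have g0 : G h w (((D * n - A : ℤ) : ℚ) / D) = e w := by
    by_contra hne; exact m0 ⟨b0, hne⟩
  have g1 : G h (-w) (((D * n + A : ℤ) : ℚ) / D) = e (-w) := by
    by_contra hne; exact m1 ⟨b1, hne⟩
  have g2 : G h y (((B * n ^ 2 + E : ℤ) : ℚ) / D) = e y := by
    by_contra hne; exact m2 ⟨b2, hne⟩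
  have a0' : ((D * n - A : ℤ) : ℚ) / D = n - α := by push_cast; rw [hA]; field_simp
  have a1' : ((D * n + A : ℤ) : ℚ) / D = n + α := by push_cast; rw [hA]; field_simp
  have a2' : ((B * n ^ 2 + E : ℤ) : ℚ) / D = q * n ^ 2 + c := by
    push_cast; rw [hB, hE]; field_simp
  rw [a0'] at g0
  rw [a1'] at g1
  rw [a2'] at g2
  change e w * e (-w) = H h q * e y
  rw [← g0, ← g1, ← g2]
  have hnw : -w ∉ (⊥ : IntermediateField ℚ K) := by
    have := affine_not_mem hw (r := -1) (by norm_num) 0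
    simpa using this
  have n1 : ((n - α : ℚ) : K) - w ≠ 0 := sub_ne_zero_of hw _
  have n2 : ((n + α : ℚ) : K) - -w ≠ 0 := sub_ne_zero_of hnw _
  have key : ((q * n ^ 2 + c : ℚ) : K) - y =
      (q : K) * ((((n - α : ℚ) : K) - w) * (((n + α : ℚ) : K) - -w)) := by
    rw [hy]; push_cast; ring
  unfold G
  rw [key, H_norm_mul hh hqK (mul_ne_zero n1 n2), H_norm_q hd hh hq0, H_norm_mul hh n1 n2,
    ← mul_assoc, H_sq hh hq0, one_mul]

/-- A chain of conics from `z` to `z'`. -/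
def Chain (z z' : K) (Q : (ℕ → ℤ) → ℤ) (N : ℕ) : Prop :=
  ∃ L : List K, L.length ≤ N ∧ (∀ y ∈ L, Gen y) ∧ z ∈ L ∧ -z ∈ L ∧
    Ev (L ++ [z', -z']) (fun h e => e z * e (-z) = Q h * (e z' * e (-z')))

theorem gen_neg {z : K} (hz : Gen z) : Gen (-z) := by
  have := gen_affine hz (r := -1) (by norm_num) 0
  simpa using this

theorem Chain.of_conic (hd : Odd (Module.finrank ℚ K)) (h1 : 1 < Module.finrank ℚ K) {z z' : K}
    (hz : Gen z) (hz' : Gen z') {q : ℚ} (hq : 0 < q) {α β c : ℚ}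
    (rel : (z + (α : K)) ^ 2 - (q : K) * (z' + (β : K)) ^ 2 = (c : K)) :
    Chain z z' (fun h => H h q) 3 := by
  have g1 : Gen (z + (α : K)) := by
    have := gen_affine hz (r := 1) one_ne_zero α
    simpa using this
  have s1 := rel_quad hd (hz.bot h1) (α := α) (q := 1) (c := 0) one_pos
    (y := (z + (α : K)) ^ 2) (by push_cast; ring)
  have s2 := rel_quad hd (hz'.bot h1) (α := β) (q := q) (c := c) hq
    (y := (z + (α : K)) ^ 2) (by linear_combination rel)
  refine ⟨[z, -z, (z + (α : K)) ^ 2], le_rfl, ?_, by simp, by simp, ((s1.and s2).sub ?_).imp ?_⟩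
  · intro y hy
    simp only [List.mem_cons, List.not_mem_nil, or_false] at hy
    rcases hy with rfl | rfl | rfl
    · exact hz
    · exact gen_neg hz
    · exact gen_sq hd g1
  · intro y hy
    simp only [List.cons_append, List.nil_append, List.mem_cons, List.not_mem_nil, or_false] at hy ⊢
    tauto
  · rintro h hh e ⟨k1, k2⟩
    have h3 := H_nat hh 1
    rw [Nat.cast_one, hh.one] at h3
    rw [k1, k2, h3, one_mul, ← mul_assoc, H_sq hh hq.ne', one_mul]

theorem Chain.trans {z z' z'' : K} {Q Q' : (ℕ → ℤ) → ℤ} {N N' : ℕ} (c1 : Chain z z' Q N)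
    (c2 : Chain z' z'' Q' N') : Chain z z'' (fun h => Q h * Q' h) (N + N') := by
  obtain ⟨L, hL, hG, m1, m2, s1⟩ := c1
  obtain ⟨L', hL', hG', m1', m2', s2⟩ := c2
  refine ⟨L ++ L', by rw [List.length_append]; exact add_le_add hL hL', ?_,
    List.mem_append_left _ m1, List.mem_append_left _ m2, ((s1.and s2).sub ?_).imp ?_⟩
  · intro y hy
    rcases List.mem_append.1 hy with h | h
    · exact hG y h
    · exact hG' y h
  · intro y hy
    simp only [List.mem_append, List.mem_cons, List.not_mem_nil, or_false] at hy ⊢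
    rcases hy with ((hy | (rfl | rfl)) | (hy | hy))
    · exact Or.inl (Or.inl hy)
    · exact Or.inl (Or.inr m1')
    · exact Or.inl (Or.inr m2')
    · exact Or.inl (Or.inr hy)
    · exact Or.inr hy
  · rintro h hh e ⟨k1, k2⟩
    rw [k1, k2, mul_assoc]

theorem Chain.close {z : K} {Q : (ℕ → ℤ) → ℤ} {N : ℕ} (c1 : Chain z z Q N) :
    ∃ L : List K, L.length ≤ N ∧ (∀ y ∈ L, Gen y) ∧ z ∈ L ∧ Ev L (fun h _ => Q h = 1) := by
  obtain ⟨L, hL, hG, m1, m2, s1⟩ := c1
  refine ⟨L, hL, hG, m1, ((s1.and (Ev.signs L)).sub ?_).imp ?_⟩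
  · intro y hy
    simp only [List.mem_append, List.mem_cons, List.not_mem_nil, or_false] at hy
    rcases hy with (hy | (rfl | rfl)) | hy
    · exact hy
    · exact m1
    · exact m2
    · exact hy
  · rintro h hh e ⟨k1, k2⟩
    rcases k2 z m1 with v1 | v1 <;> rcases k2 (-z) m2 with v2 | v2 <;> rw [v1, v2] at k1 <;>
      linarith

end Pool.Agent.Lib_helper48.CNT
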