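import Mathlib
import Pool.Agent.Lib_helper48.CNT.Rel
import Pool.Agent.Lib_helper48.EVEN.Final

/-!
Families of irreducible polynomials one of which takes both signs more than `x / 4` times in
`[x, C x^2]`, for every `x`: cubic fields and the degrees `2 ^ k - 1`.
-/

namespace Pool.Agent.Lib_helper48.CNT

open Pool.Agent.Lib_helper11.CUB Pool.Agent.Lib_helper3.QUI Polynomial
open Pool.Agent.Lib_helper48.EVEN (Gen gen_affine gen_sq affine_not_mem cubic_gen cubic_conic
  list_family)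

section field

variable {K : Type*} [Field K] [NumberField K]

/-- From majority signs to values of minimal polynomials. -/
theorem windows_count (hd : Odd (Module.finrank ℚ K)) (h1 : 1 < Module.finrank ℚ K) {L : List K}
    (hG : ∀ y ∈ L, Gen y) {Q : (ℕ → ℤ) → ℤ} (hE : Ev L (fun h _ => Q h = 1)) :
    ∃ m : ℕ, 1 ≤ m ∧ ∀ v : ℕ, 1 ≤ v → m ∣ v → (∀ z ∈ L, IsIntegral ℤ ((v : K) * z)) ∧ ∃ C : ℕ,
      ∀ h : ℕ → ℤ, CM h → Q h ≠ 1 → ∀ x : ℕ, 1 ≤ x → ∃ z ∈ L, ∀ s : ℤ, (s = 1 ∨ s = -1) →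
        x < 4 * ((Finset.Icc x (C * x ^ 2)).filter (fun n : ℕ =>
          h ((minpoly ℤ ((v : K) * z)).eval (n : ℤ)).natAbs = s)).card := by
  obtain ⟨D, hD, C, hC, H⟩ := hE
  obtain ⟨m, hm, hmi⟩ := common_int L
  refine ⟨D * m, Nat.mul_pos hD hm, fun v hv hmv => ?_⟩
  have hDv : D ∣ v := (dvd_mul_right _ _).trans hmv
  have hint : ∀ z ∈ L, IsIntegral ℤ ((v : K) * z) := by
    intro z hz
    obtain ⟨k, rfl⟩ := (dvd_mul_left _ _).trans hmv
    have natInt : IsIntegral ℤ (k : K) := by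
      have := isIntegral_algebraMap (R := ℤ) (A := K) (x := (k : ℤ))
      simpa using this
    have e : ((m * k : ℕ) : K) * z = (k : K) * ((m : K) * z) := by push_cast; ring
    rw [e]; exact natInt.mul (hmi z hz)
  refine ⟨hint, ?_⟩
  obtain ⟨C', hC'⟩ := exists_nat_ge ((v : ℚ) * C)
  refine ⟨C', fun h hh hQ x hx => ?_⟩
  by_contra hcon
  push Not at hcon
  choose! s hs hcard using hcon
  have hvq : (1 : ℚ) ≤ v := by exact_mod_cast hv
  have hxq : (1 : ℚ) ≤ x := by exact_mod_cast hx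
  have hDq : (0 : ℚ) < D := by exact_mod_cast hD
  have hvv := hh.values v hv
  obtain ⟨j, hj⟩ := hDv
  have hj1 : 1 ≤ j := by
    rcases Nat.eq_zero_or_pos j with h0 | h0
    · rw [h0, mul_zero] at hj; omega
    · exact h0
  have hjq : (1 : ℚ) ≤ j := by exact_mod_cast hj1
  apply hQ
  refine H h hh x hx (fun z => -(h v * s z)) (fun z hz => ?_) (fun z hz => ?_)
  · rcases hvv with a | a <;> rcases hs z hz with b | b <;> rw [a, b] <;> norm_num
  · refine le_trans (Nat.mul_le_mul_left 4 ?_) (hcard z hz)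
    apply Finset.card_le_card_of_injOn (fun m : ℤ => ((j : ℤ) * m).toNat)
    · intro m hm
      rw [Finset.mem_coe, mem_exc] at hm
      obtain ⟨⟨b1, b2⟩, b3⟩ := hm
      have hm0 : (0 : ℚ) ≤ m := by
        have : (0 : ℚ) ≤ D * x := by positivity
        linarith
      have hm0' : 0 ≤ m := by exact_mod_cast hm0
      have hjm : 0 ≤ (j : ℤ) * m := mul_nonneg (Int.natCast_nonneg _) hm0'
      obtain ⟨n, hn⟩ := Int.eq_ofNat_of_zero_le hjm
      have hnq : (n : ℚ) = j * m := by
        have : ((n : ℤ) : ℚ) = (((j : ℤ) * m : ℤ) : ℚ) := by rw [hn]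
        push_cast at this; exact this
      have hnv : ((n : ℤ) : ℚ) = v * (((1 : ℤ) : ℚ) * ((m : ℚ) / D)) := by
        rw [Int.cast_natCast, hnq, hj]; push_cast; field_simp
      have hval := G_scaled' hd hh ((hG z hz).bot h1) (hG z hz) hv (hint z hz) (e := 1)
        (Or.inl rfl) (k := (m : ℚ) / D) (n := (n : ℤ)) hnv
      have e1 : (((1 * v : ℤ) : ℤ) : K) = (v : K) := by push_cast; ring
      rw [e1] at hval
      show ((j : ℤ) * m).toNat ∈ _
      rw [hn, Int.toNat_natCast, Finset.mem_coe, Finset.mem_filter, Finset.mem_Icc]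
      refine ⟨⟨?_, ?_⟩, ?_⟩
      · have : (x : ℚ) ≤ n := by
          rw [hnq]
          have h2 : (x : ℚ) ≤ m := by
            have hD1 : (1 : ℚ) ≤ D := by exact_mod_cast hD
            nlinarith
          nlinarith
        exact_mod_cast this
      · have : (n : ℚ) ≤ ((C' * x ^ 2 : ℕ) : ℚ) := by
          push_cast
          rw [hnq]
          calc (j : ℚ) * m ≤ j * (D * (C * (x : ℚ) ^ 2)) :=
                mul_le_mul_of_nonneg_left b2 (by linarith)
            _ = (v * C) * (x : ℚ) ^ 2 := by rw [hj]; push_cast; ring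
            _ ≤ C' * (x : ℚ) ^ 2 := mul_le_mul_of_nonneg_right hC' (sq_nonneg _)
        exact_mod_cast this
      · rw [hval]
        have g := G_vals' hh ((hG z hz).bot h1) ((m : ℚ) / D)
        rcases hvv with a | a <;> rcases hs z hz with b | b <;> rcases g with g | g <;>
          rw [a, b, g] at b3 <;> rw [a, b, g] <;>
          first | decide | exact absurd (by decide) b3
    · intro a ha b hb hab
      have ha0 : 0 ≤ (j : ℤ) * a := by
        rw [Finset.mem_coe, mem_exc] at ha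
        have : (0 : ℚ) ≤ a := by
          have : (0 : ℚ) ≤ D * x := by positivity
          linarith [ha.1.1]
        exact mul_nonneg (Int.natCast_nonneg _) (by exact_mod_cast this)
      have hb0 : 0 ≤ (j : ℤ) * b := by
        rw [Finset.mem_coe, mem_exc] at hb
        have : (0 : ℚ) ≤ b := by
          have : (0 : ℚ) ≤ D * x := by positivity
          linarith [hb.1.1]
        exact mul_nonneg (Int.natCast_nonneg _) (by exact_mod_cast this)
      have h2 : (j : ℤ) * a = (j : ℤ) * b := by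
        have h3 : ((j : ℤ) * a).toNat = ((j : ℤ) * b).toNat := hab
        have h4 := congrArg (fun n : ℕ => (n : ℤ)) h3
        simp only [Int.toNat_of_nonneg ha0, Int.toNat_of_nonneg hb0] at h4
        exact h4
      have hj0 : (j : ℤ) ≠ 0 := by exact_mod_cast (by omega : j ≠ 0)
      exact mul_left_cancel₀ hj0 h2

theorem gen_poly {z : K} (hz : Gen z) {v : ℕ} (hv : 1 ≤ v) (hint : IsIntegral ℤ ((v : K) * z)) :
    (minpoly ℤ ((v : K) * z)).Monic ∧ Irreducible (minpoly ℤ ((v : K) * z)) ∧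
      (minpoly ℤ ((v : K) * z)).natDegree = Module.finrank ℚ K := by
  have hvq : (v : ℚ) ≠ 0 := by exact_mod_cast (by omega : v ≠ 0)
  refine ⟨minpoly.monic hint, minpoly.irreducible hint, ?_⟩
  have h2 : (minpoly ℚ ((v : K) * z)).natDegree = Module.finrank ℚ K := by
    have := deg_mul hz hvq
    rwa [Rat.cast_natCast] at this
  rw [minpoly.isIntegrallyClosed_eq_field_fractions' ℚ hint, (minpoly.monic hint).natDegree_map] at h2
  exact h2

end field

theorem gen_cubic {K : Type*} [Field K] [NumberField K] (h3 : Module.finrank ℚ K = 3) {x : K}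
    (hx : x ∉ (⊥ : IntermediateField ℚ K)) : Gen x := by
  have := IntermediateField.isSimpleOrder_of_finrank_prime ℚ K (by rw [h3]; exact Nat.prime_three)
  have htop : IntermediateField.adjoin ℚ {x} = (⊤ : IntermediateField ℚ K) := by
    rcases eq_bot_or_eq_top (IntermediateField.adjoin ℚ {x} : IntermediateField ℚ K) with h | h
    · exact absurd (h ▸ IntermediateField.mem_adjoin_simple_self ℚ x) hx
    · exact h
  unfold Gen
  rw [← IntermediateField.adjoin.finrank (Algebra.IsIntegral.isIntegral x), htop,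
    IntermediateField.finrank_top']

/-- Cubic fields: for independent `t, s` there are `a, b ∈ ℚ` such that one of the minimal polynomials
of `± v t, v (t + a)^2, ± v s, v (s + b)^2` takes both signs more than `x / 4` times in
`[x, C x^2]`. -/
theorem count_cubic {K : Type*} [Field K] [NumberField K] (h3 : Module.finrank ℚ K = 3) {t s : K}
    (hI : Ind t s) {p : ℕ} (hp : p.Prime) :
    ∃ a b : ℚ, ∃ m : ℕ, 1 ≤ m ∧ ∀ v : ℕ, 1 ≤ v → m ∣ v →
      (∀ z ∈ [t, -t, (t + (a : K)) ^ 2, s, -s, (s + (b : K)) ^ 2], IsIntegral ℤ ((v : K) * z) ∧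
        Irreducible (minpoly ℤ ((v : K) * z)) ∧ (minpoly ℤ ((v : K) * z)).natDegree = 3) ∧
      ∃ C : ℕ, ∀ h : ℕ → ℤ, CM h → h p = -1 → ∀ x : ℕ, 1 ≤ x →
        ∃ z ∈ [t, -t, (t + (a : K)) ^ 2, s, -s, (s + (b : K)) ^ 2], ∀ e : ℤ, (e = 1 ∨ e = -1) →
          x < 4 * ((Finset.Icc x (C * x ^ 2)).filter (fun n : ℕ =>
            h ((minpoly ℤ ((v : K) * z)).eval (n : ℤ)).natAbs = e)).card := by
  have hd : Odd (Module.finrank ℚ K) := by rw [h3]; decide
  have h1 : 1 < Module.finrank ℚ K := by rw [h3]; norm_num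
  have hpq : (0 : ℚ) < p := by exact_mod_cast hp.pos
  have hpK : (p : K) ≠ 0 := by exact_mod_cast hp.ne_zero
  have ht := gen_cubic h3 hI.left
  have hs := gen_cubic h3 hI.right
  obtain ⟨u1, v1, w1, e1⟩ := hI.span h3 (t ^ 2)
  obtain ⟨u2, v2, w2, e2⟩ := hI.span h3 (s ^ 2)
  obtain ⟨a, ha⟩ : ∃ a : ℚ, a = -(v1 - p * v2) / 2 := ⟨_, rfl⟩
  obtain ⟨b, hb⟩ : ∃ b : ℚ, b = -(w2 - w1) / 2 := ⟨_, rfl⟩
  obtain ⟨a', ha'⟩ : ∃ a : ℚ, a = (v2 - v1) / 2 := ⟨_, rfl⟩
  obtain ⟨b', hb'⟩ : ∃ b : ℚ, b = (w1 - p * w2) / (2 * p) := ⟨_, rfl⟩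
  have R1 := rel_quad hd hI.left (α := a) (q := 1) (c := 0) one_pos (y := (t + (a : K)) ^ 2)
    (by push_cast; ring)
  have R2 := rel_quad hd hI.right (α := b') (q := p) (c := u1 - p * u2 + a ^ 2 - p * b' ^ 2) hpq
    (y := (t + (a : K)) ^ 2) (by
      have k1 : 2 * (a : K) = -(v1 - p * v2) := by rw [ha]; push_cast; ring
      have k2 : 2 * (p : K) * (b' : K) = w1 - p * w2 := by rw [hb']; push_cast; field_simp
      push_cast
      linear_combination e1 - (p : K) * e2 + t * k1 - s * k2)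
  have R3 := rel_quad hd hI.right (α := b) (q := 1) (c := 0) one_pos (y := (s + (b : K)) ^ 2)
    (by push_cast; ring)
  have R4 := rel_quad hd hI.left (α := a') (q := 1) (c := u2 - u1 + b ^ 2 - a' ^ 2) one_pos
    (y := (s + (b : K)) ^ 2) (by
      have k1 : 2 * (b : K) = -(w2 - w1) := by rw [hb]; push_cast; ring
      have k2 : 2 * (a' : K) = v2 - v1 := by rw [ha']; push_cast; ring
      push_cast
      linear_combination e2 - e1 + s * k1 - t * k2)
  have ga : Gen ((t + (a : K)) ^ 2) := gen_sq hd (by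
    have := gen_affine ht (r := 1) one_ne_zero a
    simpa using this)
  have gb : Gen ((s + (b : K)) ^ 2) := gen_sq hd (by
    have := gen_affine hs (r := 1) one_ne_zero b
    simpa using this)
  have hG : ∀ y ∈ [t, -t, (t + (a : K)) ^ 2, s, -s, (s + (b : K)) ^ 2], Gen y := by
    intro y hy
    simp only [List.mem_cons, List.not_mem_nil, or_false] at hy
    rcases hy with rfl | rfl | rfl | rfl | rfl | rfl
    · exact ht
    · exact gen_neg ht
    · exact ga
    · exact hs
    · exact gen_neg hs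
    · exact gb
  have hE : Ev [t, -t, (t + (a : K)) ^ 2, s, -s, (s + (b : K)) ^ 2] (fun h _ => h p = 1) := by
    refine (((((R1.and R2).and R3).and R4).and
      (Ev.signs [t, -t, (t + (a : K)) ^ 2, s, -s, (s + (b : K)) ^ 2])).sub ?_).imp ?_
    · intro y hy
      simp only [List.cons_append, List.nil_append, List.mem_cons, List.not_mem_nil, or_false] at hy ⊢
      tauto
    · rintro h hh e ⟨⟨⟨⟨k1, k2⟩, k3⟩, k4⟩, k5⟩
      have h3 := H_nat hh 1
      rw [Nat.cast_one, hh.one] at h3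
      rw [h3, one_mul] at k1 k3 k4
      rw [H_nat hh] at k2
      have v1 := k5 ((t + (a : K)) ^ 2) (by simp)
      have : e ((t + (a : K)) ^ 2) = h p * e ((t + (a : K)) ^ 2) := by
        rw [← k2, k3, ← k4, k1]
      rcases v1 with v1 | v1 <;> rw [v1] at this <;> linarith
  obtain ⟨m, hm, H⟩ := windows_count hd h1 hG hE
  refine ⟨a, b, m, hm, fun v hv hmv => ?_⟩
  obtain ⟨hint, C, H⟩ := H v hv hmv
  refine ⟨fun z hz => ?_, C, fun h hh hhp x hx => H h hh (by rw [hhp]; norm_num) x hx⟩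
  obtain ⟨-, k1, k2⟩ := gen_poly (hG z hz) hv (hint z hz)
  exact ⟨hint z hz, k1, by rw [k2, h3]⟩

/-- The degrees `2 ^ k - 1`: one of `3 k` polynomials takes both signs more than `x / 4` times in
`[x, C x^2]`. -/
theorem count_tower (k : ℕ) (hk : 2 ≤ k) {p : ℕ} (hp : p.Prime) :
    ∃ g : Fin (3 * k) → ℤ[X], (∀ i, (g i).Monic ∧ Irreducible (g i) ∧
      (g i).natDegree = 2 ^ k - 1) ∧ ∃ C : ℕ, ∀ h : ℕ → ℤ, CM h → h p = -1 → ∀ x : ℕ, 1 ≤ x →
        ∃ i, ∀ s : ℤ, (s = 1 ∨ s = -1) → x < 4 * ((Finset.Icc x (C * x ^ 2)).filter (fun n : ℕ =>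
          h ((g i).eval (n : ℤ)).natAbs = s)).card := by
  obtain ⟨u, hu, huh⟩ : ∃ u : ℕ, 1 ≤ u ∧ ∀ h : ℕ → ℤ, CM h → h p = -1 →
      h p ^ (k - 1) * h (p * u) = -1 := by
    rcases Nat.even_or_odd k with he | ho
    · refine ⟨p, hp.one_lt.le, fun h hh hhp => ?_⟩
      obtain ⟨j, hj⟩ : ∃ j, k - 1 = 2 * j + 1 := by
        obtain ⟨j, hj⟩ := he
        exact ⟨j - 1, by omega⟩
      rw [hh.mul p p hp.one_lt.le hp.one_lt.le, hhp, hj, pow_succ, pow_mul]
      norm_num
    · refine ⟨1, le_rfl, fun h hh hhp => ?_⟩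
      obtain ⟨j, hj⟩ := ho
      rw [mul_one, hhp, hj, Nat.add_sub_cancel, pow_mul]
      norm_num
  obtain ⟨K, _, _, hfin, w, hw, r1, r2⟩ := Pool.Agent.Lib_helper91.QUI.tower k hk p hp u hu
  have hgen : ∀ i < k, Gen (w i) := by
    intro i hi
    unfold Gen
    rw [← IntermediateField.adjoin.finrank (Algebra.IsIntegral.isIntegral (w i)), hw i hi,
      IntermediateField.finrank_top']
  have hpow' : 4 ≤ 2 ^ k := by
    calc 4 = 2 ^ 2 := by norm_num
      _ ≤ 2 ^ k := Nat.pow_le_pow_right (by norm_num) hk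
  have heven : Even (2 ^ k) := (Nat.even_pow.2 ⟨even_two, by omega⟩)
  have hd : Odd (Module.finrank ℚ K) := by
    rw [hfin]
    obtain ⟨j, hj⟩ := heven
    exact ⟨j - 1, by omega⟩
  have h1 : 1 < Module.finrank ℚ K := by rw [hfin]; omega
  have hpq : (0 : ℚ) < p := by exact_mod_cast hp.pos
  have huq : (0 : ℚ) < u := by exact_mod_cast hu
  have hpK : (p : K) ≠ 0 := by exact_mod_cast hp.ne_zero
  have huK : (u : K) ≠ 0 := by exact_mod_cast (by omega : u ≠ 0)
  have step : ∀ i, i + 1 < k → Chain (w i) (w (i + 1)) (fun h => H h p) 3 := by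
    intro i hi
    refine Chain.of_conic hd h1 (hgen i (by omega)) (hgen (i + 1) hi) hpq (α := 0)
      (β := 1 / (2 * p)) (c := -1 / (4 * p)) ?_
    push_cast
    rw [add_zero, r1 i hi]
    field_simp
    ring
  have last : Chain (w (k - 1)) (w 0) (fun h => H h ((p : ℚ) * u)) 3 := by
    refine Chain.of_conic hd h1 (hgen (k - 1) (by omega)) (hgen 0 (by omega)) (by positivity) (α := 0)
      (β := 1 / (2 * u)) (c := -p / (4 * u)) ?_
    push_cast
    rw [add_zero, r2]
    field_simp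
    ring
  have chain : ∀ j, 1 ≤ j → j < k → Chain (w 0) (w j) (fun h => H h p ^ j) (3 * j) := by
    intro j hj
    induction j, hj using Nat.le_induction with
    | base =>
      intro hk1
      simpa using step 0 hk1
    | succ j hj ih =>
      intro hj2
      have := (ih (by omega)).trans (step j hj2)
      simpa [pow_succ, mul_add] using this
  have full : Chain (w 0) (w 0) (fun h => H h p ^ (k - 1) * H h ((p : ℚ) * u)) (3 * k) := by
    have := (chain (k - 1) (by omega) (by omega)).trans last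
    have e : 3 * (k - 1) + 3 = 3 * k := by omega
    rwa [e] at this
  obtain ⟨L, hL, hG, hmem, hE⟩ := full.close
  obtain ⟨m, hm, H⟩ := windows_count hd h1 hG hE
  obtain ⟨hint, C, H⟩ := H m hm dvd_rfl
  obtain ⟨y, hy1, hy2⟩ := list_family hL (List.ne_nil_of_mem hmem)
  refine ⟨fun i => minpoly ℤ ((m : K) * y i), fun i => ?_, C, fun h hh hhp x hx => ?_⟩
  · obtain ⟨a, b, c⟩ := gen_poly (hG _ (hy1 i)) hm (hint _ (hy1 i))
    exact ⟨a, b, by rw [c, hfin]⟩
  · obtain ⟨z, hz, H'⟩ := H h hh (by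
      have e1 : ((p : ℚ) * u) = ((p * u : ℕ) : ℚ) := by push_cast; rfl
      simp only [e1, H_nat hh, huh h hh hhp]
      norm_num) x hx
    obtain ⟨i, rfl⟩ := hy2 z hz
    exact ⟨i, H'⟩

end Pool.Agent.Lib_helper48.CNT
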